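import Pool.Agent.Helper74.UB.Goals2

/-! Packet UB-EVT (project UB of helper74). -/

namespace Pool.Agent.Helper15.UB

open Finset Equiv Helper28.VF Pool.Agent.Helper74.UB
open scoped Classical

theorem ad_symm {D V E F : Type} [Fintype D] [Fintype V] [Fintype E] [Fintype F]
    (M : PM D V E F) {u v : V} (h : Ad M u v) : Ad M v u := by
  obtain ⟨d, h1, h2⟩ := h
  refine ⟨M.α d, h2, ?_⟩
  unfold tg
  rw [M.α_inv, h1]

theorem evt : StmtEvt := by
  intro D V E F _ _ _ _ M c v₀ A Q hF T X hX R s t hsT hst htT hp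
  have h0 : R.p s 0 ∉ A (s + 1) := fun h => Finset.disjoint_left.1 (hF.disj t (s + 1)) hp h
  rcases R.alt s hsT with h | ⟨h1, _, h3, h4⟩
  · exact absurd h.1 h0
  · have hend : R.p s (R.n s) ∉ Q t := fun h =>
      Finset.disjoint_left.1 (hX.disj t htT) h (R.fin s hsT)
    refine ⟨h1, ?_, ?_, hend, h3, h4⟩
    · rcases Nat.eq_zero_or_pos (R.n s) with hn | hn
      · rw [hn] at hend
        exact absurd hp hend
      · exact hn
    · intro i hi hi' hQ
      obtain ⟨u, hu, hau⟩ := hF.adjQ s _ hQ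
      exact h4 i hi hi' u (ad_symm M hau) (hF.mono s hu)

end Pool.Agent.Helper15.UB
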