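import Pool.Agent.Helper74.UB.Goals4

/-! Packet UB-NUM (project UB of helper74). -/

namespace Pool.Agent.Helper15.UB

open Finset Equiv Helper28.VF Pool.Agent.Helper74.UB
open scoped Classical

theorem le_tp {V J : Type} [Fintype V] (row : V → ℤ) (y : ℤ) (B : Finset (V ⊕ J)) :
    y ≤ tp row y B := Finset.le_max' _ _ (Finset.mem_insert_self _ _)

theorem row_le_tp {V J : Type} [Fintype V] (row : V → ℤ) (y : ℤ) (B : Finset (V ⊕ J)) (v : V)
    (h : Sum.inl v ∈ B) : row v ≤ tp row y B := by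
  apply Finset.le_max'
  apply Finset.mem_insert_of_mem
  exact Finset.mem_image_of_mem _ (Finset.mem_filter.2 ⟨Finset.mem_univ _, h⟩)

theorem bt_le {V J : Type} [Fintype V] (row : V → ℤ) (y : ℤ) (B : Finset (V ⊕ J)) :
    bt row y B ≤ y := Finset.min'_le _ _ (Finset.mem_insert_self _ _)

theorem bt_le_row {V J : Type} [Fintype V] (row : V → ℤ) (y : ℤ) (B : Finset (V ⊕ J)) (v : V)
    (h : Sum.inl v ∈ B) : bt row y B ≤ row v := by
  apply Finset.min'_le
  apply Finset.mem_insert_of_mem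
  exact Finset.mem_image_of_mem _ (Finset.mem_filter.2 ⟨Finset.mem_univ _, h⟩)

theorem card_rows {V J : Type} [Fintype V] (row : V → ℤ) (C : Finset (V ⊕ J)) (b t : ℤ)
    (hbt : b ≤ t) (hl : ∀ u ∈ C, ∃ v, u = Sum.inl v)
    (hr : ∀ v, Sum.inl v ∈ C → row v ≤ t + 1 ∧ b ≤ row v + 1) :
    (C.card : ℤ) = nr row C (t + 1) + nr row C (b - 1) +
      ∑ r ∈ Finset.Icc b t, (nr row C r : ℤ) := by
  have h1 : C.card = (univ.filter fun v => (Sum.inl v : V ⊕ J) ∈ C).card := by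
    rw [← Finset.card_image_of_injective (univ.filter fun v => (Sum.inl v : V ⊕ J) ∈ C)
      (Sum.inl_injective (β := J))]
    congr 1
    ext u
    simp only [Finset.mem_image, Finset.mem_filter, Finset.mem_univ, true_and]
    constructor
    · intro hu
      obtain ⟨v, rfl⟩ := hl u hu
      exact ⟨v, hu, rfl⟩
    · rintro ⟨v, hv, rfl⟩
      exact hv
  have h2 : (univ.filter fun v => (Sum.inl v : V ⊕ J) ∈ C).card =
      ∑ r ∈ Finset.Icc (b - 1) (t + 1), nr row C r := by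
    rw [Finset.card_eq_sum_card_fiberwise (f := row) (t := Finset.Icc (b - 1) (t + 1))]
    · apply Finset.sum_congr rfl
      intro r _
      unfold nr
      rw [Finset.filter_filter]
    · intro v hv
      have hv' := (Finset.mem_filter.1 hv).2
      obtain ⟨h3, h4⟩ := hr v hv'
      rw [Finset.mem_coe, Finset.mem_Icc]
      omega
  have h3 : Finset.Icc (b - 1) (t + 1) = insert (t + 1) (insert (b - 1) (Finset.Icc b t)) := by
    ext r
    simp only [Finset.mem_insert, Finset.mem_Icc]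
    omega
  rw [h1, h2, h3, Finset.sum_insert, Finset.sum_insert]
  · push_cast
    ring
  · simp
  · simp only [Finset.mem_insert, Finset.mem_Icc]
    omega

theorem be_nb {D V E F : Type} [Fintype D] [Fintype V] [Fintype E] [Fintype F] (M : PM D V E F)
    (O A : Finset V) : be M O A + (nb M O A).card = (bd M O).card := by
  unfold be nb
  exact Finset.card_filter_add_card_filter_not _

theorem num (hGeo : StmtGeo) (hTot : StmtTot) (hTime : StmtTime) (hW : StmtW)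
    (hBF : StmtBaseF) : StmtNum := by
  intro K h V D E F E' F' _ _ _ _ _ _ L f M dE dW dU dN I M' y0 y1 c v₀ A Q X T R₁ R₂ hS s C hsT
    hnh hC hp1 hp2 hhf hcase t b ht hb hb2 hth
  obtain ⟨_, bf2, bf3, _, _, bf6, _, bf8, bf9⟩ :=
    hBF K h V D E F E' F' L f M dE dW dU dN I M' y0 y1 c v₀ A Q hS.base
  obtain ⟨P, hP, hPc⟩ := hGeo K h V D E F E' F' L f M dE dW dU dN I M' y0 y1 c v₀ A Q X T R₁ R₂
    hS s C hsT hC hp1 hp2 hhf hcase t b ht hb hb2 hth
  have hlink : ∀ O, O ⊆ Q s → ∀ u ∈ O, link M' u ≤ 7 := by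
    intro O hO u hu
    obtain ⟨v, rfl⟩ := bf2 s u (hO hu)
    exact bf3.2 v
  have hWC : (bd M' C).card + P.card ≤ 4 + 3 * C.card :=
    hW _ _ _ _ M' bf3.1 C P (hlink C hC.sub) hC.conn hC.ne hP
  have hcomp : ∀ O, IsComp M' (Q s) O → (bd M' O).card ≤ 4 + 3 * O.card := by
    intro O hO
    have h1 := hW _ _ _ _ M' bf3.1 O ∅ (hlink O hO.sub) hO.conn hO.ne
      ⟨by simp, by simp⟩
    simpa using h1
  obtain ⟨_, tt2, tt3⟩ := hTot _ _ _ _ M' c v₀ A Q hS.base.fire T X hS.col R₁ R₂ hS.far s hsT.le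
    hnh hcomp
  have hbe : be M' C (A s) + (nb M' C (A s)).card = (bd M' C).card := be_nb M' C (A s)
  have hT1 := hTime _ _ _ _ M' A Q T X R₁ s hsT.le
  have hT2 := hTime _ _ _ _ M' A Q T X R₂ s hsT.le
  have hy0 : y0 ≤ t := by rw [ht]; exact le_tp _ _ _
  have hy1 : b ≤ y1 := by rw [hb]; exact bt_le _ _ _
  have hΦ1s := hS.Φ1 s hsT.le (by rw [← ht]; omega)
  have hΦ10 := hS.Φ1 0 (Nat.zero_le _) (by rw [bf6.1]; omega)
  have hΦ2s := hS.Φ2 s hsT.le (by rw [← hb]; omega)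
  have hΦ20 := hS.Φ2 0 (Nat.zero_le _) (by rw [bf6.2]; omega)
  rw [← ht] at hΦ1s
  rw [bf6.1] at hΦ10
  rw [← hb] at hΦ2s
  rw [bf6.2] at hΦ20
  have hC2 := tt2 C hC
  refine ⟨?_, ?_, ?_⟩
  · omega
  · intro hs1 he1 he2 hO
    obtain ⟨O₀, hO₀, hO₀2⟩ := hO
    have hC3 := tt3 C O₀ hC hO₀ hs1 he1 he2 hO₀2
    omega
  · apply card_rows L.row C b t
    · obtain ⟨⟨v, hv, hvt⟩, _⟩ := bf9 s hcase
      rw [hb, ht, ← hvt]
      exact bt_le_row _ _ _ v hv
    · intro u hu
      exact bf2 s u (hC.sub hu)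
    · intro v hv
      have h1 := bf8 s v (hC.sub hv)
      rw [← ht, ← hb] at h1
      exact h1

end Pool.Agent.Helper15.UB
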